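import Pool.Agent.Q100.UPMain

/-!
# MP_0564d2: universal injectivity of Lindenstrauss ultraproducts in ZFC

The definitions are in `Pool/Agent/Q100/UPDefs.lean`.
-/

set_option autoImplicit false

namespace Pool.Agent.Results.MP_0564d2_an.UniversallyInjective

open Q100.UP

universe u v w

/-- In ZFC, Lindenstrauss ultraproducts over countably incomplete `κ`-good ultrafilters are
universally `(1, κ)`-injective. -/
theorem result (κ : Cardinal.{w}) {I : Type u} (U : Ultrafilter I)
    (hU : CountablyIncomplete U) (hG : Good U κ) (X : I → Type v)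
    [∀ i, NormedAddCommGroup (X i)] [∀ i, NormedSpace ℝ (X i)]
    (hX : Lindenstrauss ℝ (Ultraproduct ℝ U X)) :
    UnivInjective ℝ (Ultraproduct ℝ U X) 1 κ :=
  univ_of_lindenstrauss hU hG hX

end Pool.Agent.Results.MP_0564d2_an.UniversallyInjective
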